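import Pool.Agent.H34.ZN.Targets2
import Pool.Agent.H27.L1.Fin

/-!
Board zn (MP_52e316_nt): row STR (second copy), the L-function to the right of the critical line
against its values on the line.
-/

set_option autoImplicit false

namespace Pool.Agent.H87.ZN

open MeasureTheory Pool.Agent.H27.L1.H34.GM Pool.Agent.H27.L1.H34.GZ Pool.Agent.H27.L1.H34.GU Pool.Agent.H27.L1.H34.GA
open Pool.Agent.H27.L1.H23.GB Pool.Agent.H27.L1.H69.GA Pool.Agent.H27.L1.H69.GB Pool.Agent.H27.L1.H68.GHY Pool.Agent.H27.L1.H34.GHY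
open Pool.Agent.H27.L1.H34.GZZ
open Pool.Agent.H34.ZN

theorem one_add_le {a b x : ℝ} (ha : 0 ≤ a) (hb : 0 ≤ b) (h : x ≤ a + b) :
    1 + x ≤ (1 + a) * (1 + b) := by
  nlinarith [mul_nonneg ha hb]

/-- one point of the strip -/
theorem str_pt (hPLG : T_PLG) (K n0 : ℕ) (σ1 H' : ℝ) (hσ1 : 1 ≤ σ1) (hH' : 0 ≤ H') :
    ∃ C : ℝ, 0 < C ∧ ∀ (L Z : ℂ → ℂ) (B A M t : ℝ) (s : ℂ) (n : ℕ),
    Differentiable ℂ L → Differentiable ℂ Z → n ≤ n0 →
    (∀ w : ℂ, 1 / 2 ≤ w.re → w.re ≤ σ1 → ‖L w * Z w‖ ≤ B) → 1 ≤ A → 0 ≤ M →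
    (∀ u : ℝ, ‖L (1 / 2 + u * Complex.I)‖ ≤ A * (1 + |u - t|) ^ K) →
    (∀ w : ℂ, σ1 ≤ w.re → ‖L w‖ ≤ 2) →
    (∀ w : ℂ, 1 / 2 ≤ w.re → w.re ≤ σ1 → ‖Z w‖ ≤ M * (1 + ‖w - s‖) ^ n) →
    1 / 2 ≤ s.re → s.re ≤ σ1 → |s.im - t| ≤ H' → ‖L s‖ * ‖Z s‖ ≤ C * A * M := by
  obtain ⟨Cp, hCp, hP⟩ := hPLG (K + n0) σ1 hσ1
  refine ⟨Cp * (2 * ((1 + H') ^ K * (1 + σ1) ^ n0)), by positivity, ?_⟩
  intro L Z B A M t s n hL hZ hn hB hA hM hL1 hL2 hZ1 hs1 hs2 hs3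
  have hA0 : 0 ≤ A := by linarith
  have hZu : ∀ (x u : ℝ), 1 / 2 ≤ x → x ≤ σ1 →
      ‖Z (x + u * Complex.I)‖ ≤ M * ((1 + σ1) ^ n0 * (1 + |u - s.im|) ^ n0) := by
    intro x u hx1 hx2
    have e1 : ((x : ℂ) + u * Complex.I).re = x := by simp
    have e2 : ((x : ℂ) + u * Complex.I - s).re = x - s.re := by simp
    have e3 : ((x : ℂ) + u * Complex.I - s).im = u - s.im := by simp
    refine (hZ1 _ (by rw [e1]; exact hx1) (by rw [e1]; exact hx2)).trans ?_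
    refine mul_le_mul_of_nonneg_left ?_ hM
    rw [← mul_pow]
    have h1 : ‖(x : ℂ) + u * Complex.I - s‖ ≤ σ1 + |u - s.im| := by
      have h2 := Complex.norm_le_abs_re_add_abs_im ((x : ℂ) + u * Complex.I - s)
      rw [e2, e3] at h2
      have h3 : |x - s.re| ≤ σ1 := by
        rw [abs_le]
        constructor <;> linarith
      linarith
    have h4 : 1 + ‖(x : ℂ) + u * Complex.I - s‖ ≤ (1 + σ1) * (1 + |u - s.im|) :=
      one_add_le (by linarith) (abs_nonneg _) h1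
    have h5 : 1 ≤ 1 + ‖(x : ℂ) + u * Complex.I - s‖ := by
      linarith [norm_nonneg ((x : ℂ) + u * Complex.I - s)]
    calc (1 + ‖(x : ℂ) + u * Complex.I - s‖) ^ n ≤ (1 + ‖(x : ℂ) + u * Complex.I - s‖) ^ n0 :=
          pow_le_pow_right₀ h5 hn
      _ ≤ _ := pow_le_pow_left₀ (by linarith) h4 n0
  have hkey := hP (fun w => L w * Z w) B (2 * ((1 + H') ^ K * (1 + σ1) ^ n0) * (A * M)) s
    (hL.mul hZ) hB (by positivity) hs1 hs2 ?_ ?_
  · have h1 : ‖L s‖ * ‖Z s‖ = ‖L s * Z s‖ := (norm_mul _ _).symm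
    rw [h1]
    refine hkey.trans (le_of_eq ?_)
    ring
  · intro u
    have h1 := hL1 u
    have h2 := hZu (1 / 2) u le_rfl (by linarith)
    have e1 : (((1 / 2 : ℝ) : ℂ) + u * Complex.I) = 1 / 2 + u * Complex.I := by push_cast; ring
    rw [e1] at h2
    have h3 : 1 + |u - t| ≤ (1 + H') * (1 + |u - s.im|) := by
      refine one_add_le hH' (abs_nonneg _) ?_
      have h4 := abs_add_le (u - s.im) (s.im - t)
      have e : u - s.im + (s.im - t) = u - t := by ring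
      rw [e] at h4
      linarith
    have h4 : (1 + |u - t|) ^ K ≤ (1 + H') ^ K * (1 + |u - s.im|) ^ K := by
      rw [← mul_pow]
      exact pow_le_pow_left₀ (by linarith [abs_nonneg (u - t)]) h3 K
    show ‖L (1 / 2 + u * Complex.I) * Z (1 / 2 + u * Complex.I)‖ ≤ _
    rw [norm_mul]
    have hx : 0 ≤ |u - s.im| := abs_nonneg _
    calc ‖L (1 / 2 + u * Complex.I)‖ * ‖Z (1 / 2 + u * Complex.I)‖ ≤
          (A * ((1 + H') ^ K * (1 + |u - s.im|) ^ K)) *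
            (M * ((1 + σ1) ^ n0 * (1 + |u - s.im|) ^ n0)) := by
          refine mul_le_mul (h1.trans (mul_le_mul_of_nonneg_left h4 hA0)) h2 (norm_nonneg _)
            (by positivity)
      _ = 1 * (((1 + H') ^ K * (1 + σ1) ^ n0) * (A * M) * (1 + |u - s.im|) ^ (K + n0)) := by
          rw [pow_add]; ring
      _ ≤ 2 * (((1 + H') ^ K * (1 + σ1) ^ n0) * (A * M) * (1 + |u - s.im|) ^ (K + n0)) :=
          mul_le_mul_of_nonneg_right (by norm_num) (by positivity)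
      _ = _ := by ring
  · intro u
    have e1 : ((σ1 : ℂ) + u * Complex.I).re = σ1 := by simp
    have h1 := hL2 (σ1 + u * Complex.I) (by rw [e1])
    have h2 := hZu σ1 u (by linarith) le_rfl
    show ‖L (σ1 + u * Complex.I) * Z (σ1 + u * Complex.I)‖ ≤ _
    rw [norm_mul]
    have hx : 0 ≤ |u - s.im| := abs_nonneg _
    have h3 : 1 ≤ (1 + H') ^ K := one_le_pow₀ (by linarith)
    have h4 : 1 ≤ (1 + |u - s.im|) ^ K := one_le_pow₀ (by linarith)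
    have h5 : 1 ≤ A * ((1 + H') ^ K * (1 + |u - s.im|) ^ K) := by
      nlinarith [mul_le_mul h3 h4 zero_le_one (by positivity : 0 ≤ (1 + H') ^ K),
        mul_nonneg (by positivity : 0 ≤ (1 + H') ^ K) (by positivity : 0 ≤ (1 + |u - s.im|) ^ K)]
    calc ‖L (σ1 + u * Complex.I)‖ * ‖Z (σ1 + u * Complex.I)‖ ≤
          2 * (M * ((1 + σ1) ^ n0 * (1 + |u - s.im|) ^ n0)) :=
          mul_le_mul h1 h2 (norm_nonneg _) (by norm_num)
      _ = 1 * (2 * (M * ((1 + σ1) ^ n0 * (1 + |u - s.im|) ^ n0))) := by ring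
      _ ≤ (A * ((1 + H') ^ K * (1 + |u - s.im|) ^ K)) *
            (2 * (M * ((1 + σ1) ^ n0 * (1 + |u - s.im|) ^ n0))) :=
          mul_le_mul_of_nonneg_right h5 (by positivity)
      _ = _ := by rw [pow_add]; ring

theorem pf_STR (hPRF : T_PRF) (hLMB : Pool.Agent.H27.L1.H23.GB.T_LMB) (hZPB : T_ZPB)
    (hMLZ : T_MLZ) (hENA : T_ENA) (hCNR : T_CNR) (hCFA : T_CFA)
    (hSMA : Pool.Agent.H27.L1.H34.GA.T_SMA) (hPHB : T_PHB) (hTAY : Pool.Agent.H27.L1.H34.GZZ.T_TAY) (hCIZ : T_CIZ)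
    (hMED : T_MED) (hZPS : T_ZPS) (hZES : T_ZES) (hPLG : T_PLG) (hLMS : T_LMS) : Pool.Agent.H34.ZN.T_STR := by
  obtain ⟨χ, hχ⟩ := hPRF
  intro m K hm d σ1 H hd hd1 hσ1 hH
  obtain ⟨B, hB, hLam⟩ := hLMB m hm
  obtain ⟨r0, hr0, hZ0⟩ := hZPB m χ 0 hm hχ
  obtain ⟨CN, hCN, hNR⟩ := hCNR m hm
  obtain ⟨cT, cT2, CT, hcT, hcT2, hCT, hT⟩ := hTAY m χ hm hχ CN hCN
  obtain ⟨CS, hCS, hS'⟩ := hZPS m χ σ1 hm hχ hσ1
  obtain ⟨H', hH'⟩ : ∃ H' : ℝ, H' = σ1 + H + 1 := ⟨_, rfl⟩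
  have hH'0 : 0 ≤ H' := by rw [hH']; linarith
  obtain ⟨n0, R0, cz, Cz, hcz, hCz, hR0, hES⟩ := hZES (max CT CS) cT2 σ1 H' hcT2 hσ1 hH'0
  obtain ⟨Cp, hCp, hpt⟩ := str_pt hPLG K n0 σ1 H' hσ1 hH'0
  obtain ⟨CC, hCC, hC⟩ := hCIZ n0 (d / 2) (by positivity)
  obtain ⟨CP, cP, AP, hCP, hcP, hP⟩ := hPHB χ hχ m hm 1 0 one_pos
  obtain ⟨c, hc, hc2, hcT1, hcR⟩ : ∃ c : ℝ, 0 < c ∧ c ≤ 1 / 2 ∧ c * 4 ≤ cT ∧ c * R0 ≤ 1 := by
    refine ⟨min (1 / 2) (min (cT / 4) R0⁻¹), lt_min (by norm_num) (lt_min (by positivity)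
      (by positivity)), min_le_left _ _, ?_, ?_⟩
    · have h1 : min (1 / 2) (min (cT / 4) R0⁻¹) ≤ cT / 4 :=
        (min_le_right _ _).trans (min_le_left _ _)
      linarith
    · have h1 : min (1 / 2) (min (cT / 4) R0⁻¹) ≤ R0⁻¹ :=
        (min_le_right _ _).trans (min_le_right _ _)
      calc min (1 / 2) (min (cT / 4) R0⁻¹) * R0 ≤ R0⁻¹ * R0 :=
            mul_le_mul_of_nonneg_right h1 hR0.le
        _ = 1 := inv_mul_cancel₀ hR0.ne'
  refine ⟨CC * (Cp * Cz * cz⁻¹ + 2), by positivity, ?_⟩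
  intro N _ T D hS F lam P hF hn hLip hP1 L hLL hL2 t A ht hA hL1 s0 hs0 hs0' hs0i
  have hNZ : NZ F := spx_nz hS (by rw [hn]; exact one_ne_zero)
  have hP0 : 0 < P := by linarith
  have hA0 : 0 ≤ A := by linarith
  have hc1 : Cof m (c1 D F) 1 := by
    have h1 := hCFA m N T D hS F lam hF.toHecA
    rw [hn] at h1
    exact h1
  have hlam := hLam N T D hS F lam hF.toHecA hNZ
  obtain ⟨δ, hδd⟩ : ∃ δ : ℝ, δ = c / P := ⟨_, rfl⟩
  have hδ0 : 0 < δ := by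
    rw [hδd]
    positivity
  have hδP : δ * P = c := by
    rw [hδd]
    field_simp
  have hδc : δ ≤ c := by
    rw [hδd]
    exact div_le_self hc.le hP1
  have hδ2 : δ ≤ 1 / 2 := hδc.trans hc2
  have hδR : R0 ≤ δ⁻¹ := by
    rw [le_inv_comm₀ hR0 hδ0]
    refine hδc.trans ?_
    rw [le_inv_comm₀ hc hR0, ← one_div, le_div_iff₀ hc]
    linarith
  obtain ⟨hΦ, hΦ0, -, -⟩ := hP δ hδ0 hδ2
  have hZ3 := (hZ0 δ hδ0 hδ2 (c1 D F) hc1).2.2
  have hZS := hS' δ hδ0 hδ2 (c1 D F) hc1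
  -- the zeta integral on the disc
  have hsT : δ * (1 + P + ‖(1 / 2 + t * Complex.I : ℂ)‖) ≤ cT := by
    have h4 : ‖(1 / 2 + t * Complex.I : ℂ)‖ ≤ 1 / 2 + |t| := by
      refine (norm_add_le _ _).trans (le_of_eq ?_)
      rw [norm_mul, Complex.norm_I, mul_one, Complex.norm_real, Real.norm_eq_abs]
      norm_num
    have h6 : 1 + P + ‖(1 / 2 + t * Complex.I : ℂ)‖ ≤ 4 * P := by
      linarith
    calc δ * (1 + P + ‖(1 / 2 + t * Complex.I : ℂ)‖) ≤ δ * (4 * P) :=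
          mul_le_mul_of_nonneg_left h6 hδ0.le
      _ = (δ * P) * 4 := by ring
      _ = c * 4 := by rw [hδP]
      _ ≤ cT := hcT1
  obtain ⟨hZd, s1, hs1, hs1'⟩ := hT (c1 D F) P (1 / 2 + t * Complex.I) δ hc1.meas hc1.bd hP0.le
    (fun w hw => hNR N T D hS F lam hF.toHecA hn P hLip hP0.le w hw) hδ0 hsT
  obtain ⟨Φ, hΦd⟩ : ∃ Φ : Mat m → ℂ, Φ = dD^[m] (bi m χ δ) := ⟨_, rfl⟩
  rw [← hΦd] at hΦ hΦ0 hZ3 hs1'
  simp only [← hΦd] at hZd hZS
  have hAd : Adm F (Pool.Agent.H27.L1.H34.GA.cf Φ) := Or.inr hΦ0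
  have hWc := hSMA m N T D hS F lam hF hNZ Φ hΦ hAd
  obtain ⟨L', hL', hLW'⟩ := hENA m N T D hS F lam hF hNZ
  have hLe : L = L' := isl_uniq hLL hL'
  have hLW : ∀ s : ℂ, LmA m (uu Φ (c1 D F)) lam s = L s * MelA m (uu Φ (c1 D F)) s := by
    rw [hLe]
    exact hLW' _ hWc
  obtain ⟨-, hcψ, hMel⟩ := hMLZ m hm (c1 D F) 1 hc1 Φ hΦ.toTg
  have hMd : Differentiable ℂ (MelA m (uu Φ (c1 D F))) := hMED m r0 _ hm hr0 hcψ hZ3
  obtain ⟨BW, hBW⟩ := hLMS m lam (uu Φ (c1 D F)) B r0 (1 / 2) σ1 hm hr0 hcψ hZ3 hlam hWc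
  -- the zeros
  obtain ⟨n, z, hn0, hzz⟩ := hES (MelA m (uu Φ (c1 D F))) t δ⁻¹ hMd hδR
    (fun s hs => by
      rw [hMel]
      exact (hZd s hs).trans (le_max_left _ _))
    (fun s hs hs' => by
      rw [hMel]
      exact (hZS s hs hs').trans (le_max_right _ _))
    ⟨s1, hs1, by
      rw [hMel]
      exact hs1'⟩
  -- one point of the disc
  have hdisc : ∀ s : ℂ, ‖s - s0‖ ≤ d / 2 → ‖L s‖ * ∏ i, min 1 ‖s - z i‖ ≤
      (Cp * Cz * cz⁻¹ + 2) * A := by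
    intro s hs
    have hPm1 : ∏ i, min 1 ‖s - z i‖ ≤ 1 :=
      Finset.prod_le_one (fun i _ => le_min zero_le_one (norm_nonneg _)) fun i _ => min_le_left _ _
    have hPm0 : 0 ≤ ∏ i, min 1 ‖s - z i‖ :=
      Finset.prod_nonneg fun i _ => le_min zero_le_one (norm_nonneg _)
    have hre : |s.re - s0.re| ≤ d / 2 := by
      have h2 := Complex.abs_re_le_norm (s - s0)
      rw [Complex.sub_re] at h2
      exact h2.trans hs
    have him : |s.im - s0.im| ≤ d / 2 := by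
      have h2 := Complex.abs_im_le_norm (s - s0)
      rw [Complex.sub_im] at h2
      exact h2.trans hs
    rw [abs_le] at hre him
    rcases le_or_gt s.re σ1 with h | h
    · have hs12 : 1 / 2 ≤ s.re := by linarith [hre.1]
      have himt : |s.im - t| ≤ H + 1 := by
        have h4 := abs_add_le (s.im - s0.im) (s0.im - t)
        have e : s.im - s0.im + (s0.im - t) = s.im - t := by ring
        rw [e] at h4
        have h5 : |s.im - s0.im| ≤ d / 2 := abs_le.2 him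
        linarith
      have hnrm : ‖s - (1 / 2 + t * Complex.I)‖ ≤ H' := by
        have h2 := Complex.norm_le_abs_re_add_abs_im (s - (1 / 2 + t * Complex.I))
        have e2 : (s - (1 / 2 + t * Complex.I)).re = s.re - 1 / 2 := by simp
        have e3 : (s - (1 / 2 + t * Complex.I)).im = s.im - t := by simp
        rw [e2, e3] at h2
        have h3 : |s.re - 1 / 2| ≤ σ1 := by
          rw [abs_le]
          constructor <;> linarith
        rw [hH']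
        linarith
      obtain ⟨hlo, hup⟩ := hzz s hnrm
      obtain ⟨Q, hQ⟩ : ∃ Q : ℝ, Q = ∏ i, max 1 ‖s - z i‖ := ⟨_, rfl⟩
      have hQ1 : 1 ≤ Q := by
        rw [hQ]
        calc (1 : ℝ) = ∏ _i : Fin n, (1 : ℝ) := Finset.prod_const_one.symm
          _ ≤ _ := Finset.prod_le_prod (fun _ _ => zero_le_one) fun i _ => le_max_left _ _
      rw [← hQ] at hlo hup
      have hRn : 0 < δ⁻¹ ^ n := by positivity
      have hQ0 : 0 < Q := by linarith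
      have hmain := hpt L (MelA m (uu Φ (c1 D F))) BW A (Cz * (δ⁻¹ ^ n)⁻¹ * Q) t s n
        hLL.1 hMd hn0
        (fun w hw1 hw2 => by rw [← hLW]; exact hBW w hw1 hw2)
        hA (by positivity) hL1 hL2 hup hs12 h (himt.trans (by rw [hH']; linarith))
      obtain ⟨Pm, hPmd⟩ : ∃ Pm : ℝ, Pm = ∏ i, min 1 ‖s - z i‖ := ⟨_, rfl⟩
      rw [← hPmd] at hlo hPm0 hPm1 ⊢
      have h1 : ‖L s‖ * (cz * (δ⁻¹ ^ n)⁻¹ * (Pm * Q)) ≤ Cp * A * (Cz * (δ⁻¹ ^ n)⁻¹ * Q) :=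
        (mul_le_mul_of_nonneg_left hlo (norm_nonneg _)).trans hmain
      have h2 : ‖L s‖ * Pm ≤ Cp * Cz * cz⁻¹ * A := by
        have e1 : ‖L s‖ * Pm = ‖L s‖ * (cz * (δ⁻¹ ^ n)⁻¹ * (Pm * Q)) *
            (cz⁻¹ * δ⁻¹ ^ n * Q⁻¹) := by
          field_simp
        have e2 : Cp * Cz * cz⁻¹ * A = Cp * A * (Cz * (δ⁻¹ ^ n)⁻¹ * Q) *
            (cz⁻¹ * δ⁻¹ ^ n * Q⁻¹) := by
          field_simp
        rw [e1, e2]
        exact mul_le_mul_of_nonneg_right h1 (by positivity)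
      linarith
    · have h1 := hL2 s h.le
      have h2 : ‖L s‖ * ∏ i, min 1 ‖s - z i‖ ≤ 2 * 1 :=
        mul_le_mul h1 hPm1 hPm0 (by norm_num)
      have h3 : 0 ≤ Cp * Cz * cz⁻¹ * A := by positivity
      nlinarith
  have hfin := hC n L z s0 _ hn0 hLL.1 hdisc
  refine hfin.trans (le_of_eq (by ring))

end Pool.Agent.H87.ZN
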